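import Pool.Agent.Lib.MP_da2c1b_co.T64Nec
import Pool.Agent.Lib.MP_da2c1b_co.T64Pack
import Pool.Agent.Lib.MP_da2c1b_co.T64Cov
import Pool.Agent.Lib.MP_da2c1b_co.T64Hex

namespace Pool.Agent.Results.MP_da2c1b_co.EllipseIff

open Pool.Agent.Lib.MP_da2c1b_co

theorem result (K : Set E) (hc : IsCompact K) (hconv : Convex ℝ K) (hne : (interior K).Nonempty) :
    List.TFAE [∃ (c : E) (A : E ≃ₗ[ℝ] E), K = (fun z => c + A z) '' Metric.closedBall 0 1,
      pdBy PM K / cdBy PM K = 3 / 4,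
      ∃ G : Set (E ≃ᵢ E), PM ⊆ G ∧ pdBy G K / cdBy G K ≤ 3 / 4] := by
  tfae_have 1 → 2 := by
    rintro ⟨c, A, rfl⟩
    have e3 : (3 / 4 : ENNReal) = ENNReal.ofReal (3 / 4) := by
      rw [ENNReal.ofReal_div_of_pos (by norm_num)]; simp
    have h12 : √12 = 2 * √3 := by
      rw [show (12 : ℝ) = 2 ^ 2 * 3 by norm_num, Real.sqrt_mul (by norm_num),
        Real.sqrt_sq (by norm_num)]
    have h27 : √27 = 3 * √3 := by
      rw [show (27 : ℝ) = 3 ^ 2 * 3 by norm_num, Real.sqrt_mul (by norm_num),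
        Real.sqrt_sq (by norm_num)]
    have hp := Real.pi_pos
    rw [(pdBy_le c A).antisymm (le_pdBy c A), (cdBy_le c A).antisymm (le_cdBy c A),
      ← ENNReal.ofReal_div_of_pos (by positivity), e3, h12, h27]
    congr 1
    field_simp
    norm_num
  tfae_have 2 → 3 := fun h => ⟨PM, le_rfl, h.le⟩
  tfae_have 3 → 1 := fun ⟨G, hG, h⟩ => main_allT K hc hconv hne
    ((ENNReal.div_le_div (pdBy_mono hG K) (cdBy_anti hG K)).trans h)
  tfae_finish

end Pool.Agent.Results.MP_da2c1b_co.EllipseIff
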